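import Mathlib

set_option autoImplicit false

namespace Pool.Agent.Results.MP_4cbb29_co.Broom

open Matrix Polynomial

variable {V : Type} [Fintype V] [DecidableEq V]

def S (G : SimpleGraph V) : Set (Matrix V V ℝ) :=
  {A | A.IsSymm ∧ ∀ i j, i ≠ j → (A i j ≠ 0 ↔ G.Adj i j)}

noncomputable def q (G : SimpleGraph V) : ℕ :=
  sInf {k | ∃ A ∈ S G, k = (spectrum ℝ A).ncard}

def Achieves (G : SimpleGraph V) (k : ℕ) : Prop :=
  ∃ A ∈ S G, ∃ a b : ℝ, a ≠ b ∧ A.charpoly = (X - C a) ^ (Fintype.card V - k) * (X - C b) ^ k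

noncomputable def MB (G : SimpleGraph V) : ℕ :=
  sInf {k | 1 ≤ k ∧ k ≤ Fintype.card V / 2 ∧ Achieves G k}

def broom (r m n : ℕ) : SimpleGraph (Fin r ⊕ Fin m ⊕ Fin n) := SimpleGraph.fromRel fun x y =>
  match x, y with
  | .inl i, .inl j => i.val + 1 = j.val
  | .inl i, .inr (.inl _) => i.val = 0
  | .inl i, .inr (.inr _) => i.val + 1 = r
  | .inr _, _ => False

lemma low (G : SimpleGraph V) {i j : V} (h : G.Adj i j) (A : Matrix V V ℝ)
    (hA : A ∈ S G) : 2 ≤ (spectrum ℝ A).ncard := by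
  have hH : A.IsHermitian := by simpa [Matrix.IsHermitian] using hA.1.eq
  by_contra hc
  rw [hH.spectrum_real_eq_range_eigenvalues] at hc
  have h1 : ∀ k, hH.eigenvalues k = hH.eigenvalues i := fun k =>
    (Set.ncard_le_one (Set.finite_range _)).1 (by omega) _ ⟨k, rfl⟩ _ ⟨i, rfl⟩
  have h2 : A = hH.eigenvalues i • (1 : Matrix V V ℝ) := by
    have : Matrix.diagonal (RCLike.ofReal ∘ hH.eigenvalues) =
        hH.eigenvalues i • (1 : Matrix V V ℝ) := by
      ext a b
      by_cases e : a = b <;> simp [e, h1 b]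
    conv_lhs => rw [hH.spectral_theorem, this]
    simp
  refine (hA.2 i j h.ne).2 h ?_
  rw [h2]
  simp [h.ne]

lemma proj (G : SimpleGraph V) (k : ℕ) (h : Achieves G k) :
    ∃ B ∈ S G, ∃ c : ℝ, B * B = c • B ∧ B.rank ≤ k := by
  obtain ⟨A, hA, a, b, hab, hc⟩ := h
  have hH : A.IsHermitian := by simpa [Matrix.IsHermitian] using hA.1.eq
  have hr := hH.roots_charpoly_eq_eigenvalues
  rw [hc, roots_mul (mul_ne_zero (pow_ne_zero _ (X_sub_C_ne_zero a)) (pow_ne_zero _ (X_sub_C_ne_zero b))),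
    roots_pow, roots_pow, roots_X_sub_C, roots_X_sub_C] at hr
  have h1 : ∀ i, hH.eigenvalues i = a ∨ hH.eigenvalues i = b := fun i => by
    have : hH.eigenvalues i ∈ (Fintype.card V - k) • ({a} : Multiset ℝ) + k • {b} := by
      rw [hr]; exact Multiset.mem_map.2 ⟨i, by simp, rfl⟩
    simp only [Multiset.mem_add, Multiset.mem_nsmul, Multiset.mem_singleton] at this
    tauto
  have h2 : (Finset.univ.filter fun i => b = hH.eigenvalues i).card = k := by
    have := congrArg (Multiset.count b) hr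
    rw [Multiset.count_map] at this
    simpa [hab.symm, Finset.card, Finset.filter] using this.symm
  set U : Matrix V V ℝ := ↑hH.eigenvectorUnitary
  have hU : star U * U = 1 := Unitary.coe_star_mul_self _
  have hU' : U * star U = 1 := Unitary.coe_mul_star_self _
  have hB : A - a • 1 = U * diagonal (fun i => hH.eigenvalues i - a) * star U := by
    have : diagonal (fun i => hH.eigenvalues i - a) =
        diagonal (RCLike.ofReal ∘ hH.eigenvalues) - a • (1 : Matrix V V ℝ) := by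
      ext i j
      by_cases e : i = j <;> simp [e]
    rw [this, Matrix.mul_sub, Matrix.sub_mul, Matrix.mul_smul, Matrix.mul_one, Matrix.smul_mul, hU']
    congr 1
    exact hH.spectral_theorem
  refine ⟨A - a • 1, ⟨hA.1.sub (isSymm_one.smul a), fun i j e => by simpa [e] using hA.2 i j e⟩,
    b - a, ?_, ?_⟩
  · rw [hB]
    simp only [Matrix.mul_assoc]
    rw [← Matrix.mul_assoc (star U), hU, Matrix.one_mul, ← Matrix.mul_assoc (diagonal _),
      diagonal_mul_diagonal, ← Matrix.mul_smul, ← Matrix.smul_mul]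
    congr 2
    ext i j
    by_cases e : i = j
    · rcases h1 j with t | t <;> simp [e, t]
    · simp [e]
  · rw [hB]
    refine (rank_mul_le_left _ _).trans ((rank_mul_le_right _ _).trans ?_)
    rw [rank_diagonal, Fintype.card_subtype, ← h2]
    refine Finset.card_le_card fun i hi => ?_
    rcases h1 i with t | t <;> simp_all

lemma no (G : SimpleGraph V) (a x z y : V) (h1 : a ≠ x) (h2 : x ≠ z) (h3 : z ≠ y) (n1 : ¬ G.Adj a x)
    (n2 : ¬ G.Adj x z) (n3 : ¬ G.Adj z y) (p1 : G.Adj x y) (p2 : G.Adj z a) (p3 : G.Adj a y) (k : ℕ)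
    (hk : k ≤ 2) : ¬ Achieves G k := fun h => by
  obtain ⟨B, ⟨hs, hB⟩, c, hc, hr⟩ := proj G k h
  have z0 : ∀ i j, i ≠ j → ¬ G.Adj i j → B i j = 0 := fun i j e h => by simpa [h] using hB i j e
  have nz : ∀ i j, G.Adj i j → B i j ≠ 0 := fun i j h => (hB i j h.ne).2 h
  have sy : ∀ i j, B j i = B i j := fun i j => hs.apply i j
  have dg : ∀ i j, G.Adj i j → B i i ≠ 0 := fun i j h e => by
    have := congrFun (congrFun hc i) i
    simp only [mul_apply, Matrix.smul_apply, smul_eq_mul, e, mul_zero] at this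
    refine (Finset.sum_pos' (fun l _ => by rw [sy i l]; exact mul_self_nonneg _) ⟨j, by simp, ?_⟩).ne' this
    rw [sy i j]
    exact mul_self_pos.2 (nz i j h)
  have : (B.submatrix ![x, z, a] ![x, z, y]).det = 0 := by
    by_contra hd
    have := rank_of_isUnit _ ((isUnit_iff_isUnit_det _).2 (Ne.isUnit hd))
    have := rank_submatrix_le B ![x, z, a] ![x, z, y]
    simp only [Fintype.card_fin] at *
    omega
  simp [det_fin_three, z0 a x h1 n1, z0 x z h2 n2, z0 z y h3 n3, sy x z, dg x y p1, dg z a p2,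
    nz a y p3] at this

lemma fr (G : SimpleGraph V) (hV : 6 ≤ Fintype.card V) (v : V → Fin 3 → ℝ) (w : V → ℝ)
    (hw : ∀ i, 0 < w i) (h1 : ∀ k l, ∑ i, w i * (v i k * v i l) = if k = l then 2 else 0)
    (h2 : ∀ i j, i ≠ j → (v i 0 * v j 0 + v i 1 * v j 1 + v i 2 * v j 2 ≠ 0 ↔ G.Adj i j))
    {i j : V} (hij : G.Adj i j) (h3 : ∀ k ≤ 2, ¬ Achieves G k) : q G = 2 ∧ MB G = 3 := by
  let W : Matrix (Fin 3) V ℝ := fun k i => v i k * √(w i)
  have memS : Wᵀ * W ∈ S G := ⟨by simp [IsSymm], fun i j e => by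
    have : (Wᵀ * W) i j = (v i 0 * v j 0 + v i 1 * v j 1 + v i 2 * v j 2) * (√(w i) * √(w j)) := by
      simp only [mul_apply, transpose_apply, W, Fin.sum_univ_three]
      ring
    rw [this, ← h2 i j e]
    simp only [ne_eq, mul_eq_zero, Real.sqrt_ne_zero'.2 (hw _), or_false]⟩
  have chp : (Wᵀ * W).charpoly = (X - C 0) ^ (Fintype.card V - 3) * (X - C 2) ^ 3 := by
    have : W * Wᵀ = diagonal fun _ => 2 := by
      ext k l
      simp only [mul_apply, transpose_apply, W, diagonal_apply, ← h1 k l]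
      refine Finset.sum_congr rfl fun i _ => ?_
      linear_combination (v i k * v i l) * Real.mul_self_sqrt (hw i).le
    rw [charpoly_mul_comm_of_le _ _ (by simp; omega), this, charpoly_diagonal]
    simp
  have a3 : 3 ∈ {k | 1 ≤ k ∧ k ≤ Fintype.card V / 2 ∧ Achieves G k} :=
    ⟨by norm_num, by omega, _, memS, 0, 2, by norm_num, chp⟩
  refine ⟨le_antisymm (Nat.sInf_le ⟨_, memS, le_antisymm (low G hij _ memS) ?_⟩)
    (le_csInf ⟨_, _, memS, rfl⟩ fun k ⟨A, hA, e⟩ => e ▸ low G hij A hA),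
    le_antisymm (Nat.sInf_le a3) (le_csInf ⟨_, a3⟩ fun k hk => ?_)⟩
  · refine (Set.ncard_le_ncard (t := {0, 2}) fun x hx => ?_).trans
      ((Set.ncard_insert_le _ _).trans (by simp))
    rw [mem_spectrum_iff_isRoot_charpoly, chp] at hx
    simp only [IsRoot.def, eval_mul, eval_pow, eval_sub, eval_X, eval_C, mul_eq_zero] at hx
    rcases hx with h | h <;> simp [sub_eq_zero.1 (pow_eq_zero_iff'.1 h).1]
  · by_contra hc
    exact h3 k (by omega) hk.2.2

lemma pert (m : ℕ) (hm : 1 < m) : ∃ (p : Fin m → ℝ) (P c : ℝ), (∀ i, p i ≠ 0 ∧ -1 / 10 ≤ p i ∧ p i ≤ 1 / 10) ∧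
    P < 1 ∧ 0 < c ∧ ∀ α β γ : ℝ, ∑ i, c * (α + β * p i + γ * p i ^ 2) = α + γ * P := by
  have h : (1 : ℝ) < m := by exact_mod_cast hm
  let p : Fin m → ℝ := fun i => 1 / (10 * m) - if i = ⟨0, by omega⟩ then 1 / 10 else 0
  have b1 : (0 : ℝ) < 1 / (10 * m) := by positivity
  have b2 : (1 : ℝ) / (10 * m) < 1 / 10 := one_div_lt_one_div_of_lt (by norm_num) (by linarith)
  have hp : ∀ i, p i ≠ 0 ∧ -1 / 10 ≤ p i ∧ p i ≤ 1 / 10 := fun i => by
    simp only [p]
    split_ifs
    · exact ⟨by linarith [b2] |> ne_of_lt, by linarith, by linarith⟩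
    · exact ⟨by linarith [b1] |> ne_of_gt, by linarith, by linarith⟩
  have s : ∑ i, p i = 0 := by
    simp only [p, Finset.sum_sub_distrib, Finset.sum_const, Finset.card_univ, Fintype.card_fin,
      Finset.sum_ite_eq', Finset.mem_univ, if_true, nsmul_eq_mul]
    field_simp
    ring
  refine ⟨p, (∑ i, p i ^ 2) / m, 1 / m, hp, ?_, by positivity, fun α β γ => ?_⟩
  · rw [div_lt_one (by linarith)]
    have := Finset.sum_le_card_nsmul Finset.univ (fun i => p i ^ 2) (1 / 100) fun i _ => by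
      have := hp i
      nlinarith
    simp only [Finset.card_univ, Fintype.card_fin, nsmul_eq_mul] at this
    linarith
  · simp only [← Finset.mul_sum, Finset.sum_add_distrib, s, Finset.sum_const, Finset.card_univ,
      Fintype.card_fin, nsmul_eq_mul]
    field_simp
    ring

theorem result (r m n : ℕ) (hr : r = 2 ∨ r = 3 ∨ r = 4) (hm : 1 < m) (hn : 1 < n) :
    q (broom r m n)ᶜ = 2 ∧ MB (broom r m n)ᶜ = 3 := by
  obtain ⟨p, P, c, hp, hP, hc, sp⟩ := pert m hm
  obtain ⟨s, Q, d, hs, hQ, hd, ss⟩ := pert n hn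
  have sp' : ∀ (f : Fin m → ℝ) (α β γ : ℝ), (∀ i, f i = α + β * p i + γ * p i ^ 2) →
      ∑ i, c * f i = α + γ * P := fun f α β γ h => by simp only [h, sp]
  have ss' : ∀ (f : Fin n → ℝ) (α β γ : ℝ), (∀ i, f i = α + β * s i + γ * s i ^ 2) →
      ∑ i, d * f i = α + γ * Q := fun f α β γ h => by simp only [h, ss]
  have gen : ∀ (x : Fin r → Fin 3 → ℝ) (w : Fin r → ℝ) (g u g' u' : Fin 3 → ℝ) (a b : Fin r)
      (y : Fin r ⊕ Fin m ⊕ Fin n), (∀ i, 0 < w i) →
      (∀ k l, ∑ i, w i * (x i k * x i l) + (g k * g l + u k * u l * P) + (g' k * g' l + u' k * u' l * Q) =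
        if k = l then 2 else 0) →
      (∀ i j, i ≠ j → (let v := Sum.elim x (Sum.elim (fun i k => g k + p i * u k) fun i k => g' k + s i * u' k)
        v i 0 * v j 0 + v i 1 * v j 1 + v i 2 * v j 2 ≠ 0 ↔ (broom r m n)ᶜ.Adj i j)) →
      a.val = 0 → b.val = 1 → (broom r m n).Adj (.inl b) y → (broom r m n)ᶜ.Adj (.inl a) y →
      (broom r m n)ᶜ.Adj (.inr (.inl ⟨0, by omega⟩)) y →
      q (broom r m n)ᶜ = 2 ∧ MB (broom r m n)ᶜ = 3 := by
    intro x w g u g' u' a b y hw h1 h2 ha hb y1 y2 y3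
    have hab : a ≠ b := fun e => by simp [e, hb] at ha
    refine fr _ (by simp; omega) _ (Sum.elim w (Sum.elim (fun _ => c) fun _ => d)) ?_ (fun k l => ?_) h2 y2
      (no _ (.inr (.inl ⟨0, by omega⟩)) (.inl a) (.inl b) y (by simp) (by simpa using hab) y1.ne
        (by simp [broom, ha]) (by simp [broom, ha, hb, hab]) (by simp [y1]) y2 (by simp [broom, hb]) y3)
    · rintro (i | i | i) <;> simp [*]
    · simp only [Fintype.sum_sum_type, Sum.elim_inl, Sum.elim_inr]
      rw [← h1, sp' _ (g k * g l) (g k * u l + u k * g l) (u k * u l) fun i => by ring,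
        ss' _ (g' k * g' l) (g' k * u' l + u' k * g' l) (u' k * u' l) fun i => by ring, ← add_assoc]
  rcases hr with rfl | rfl | rfl
  · refine gen ![![1, 0, 0], ![0, 1, 0]] ![2 - Q, 2 - P] ![0, 0, 1] ![0, 1, 0] ![0, 0, 1] ![1, 0, 0] 0 1
      (.inr (.inr ⟨0, by omega⟩)) (fun i => ?_) (fun k l => ?_) ?_ rfl rfl (by simp [broom])
      (by simp [broom]) (by simp [broom])
    · fin_cases i <;> simp <;> linarith
    · fin_cases k <;> fin_cases l <;> simp [Fin.sum_univ_succ] <;> ring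
    · rintro (i | i | i) (j | j | j) e <;> (try fin_cases i) <;> (try fin_cases j) <;>
        simp [broom, (hp _).1, (hs _).1] at e ⊢ <;> (try simp [e]) <;>
        first
          | exact ne_of_gt (by nlinarith [hp i, hp j])
          | exact ne_of_gt (by nlinarith [hs i, hs j])
  · refine gen ![![1, 0, 0], ![0, 0, 1], ![3 / 5, 4 / 5, 0]] ![1, 2 - P - Q, 1] ![0, 1, 0] ![0, 0, 1]
      ![-4 / 5, 3 / 5, 0] ![0, 0, 1] 0 1 (.inl 2) (fun i => ?_) (fun k l => ?_) ?_ rfl rfl
      (by simp [broom]) (by simp [broom]) (by simp [broom])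
    · fin_cases i <;> simp <;> linarith
    · fin_cases k <;> fin_cases l <;> simp [Fin.sum_univ_succ] <;> ring
    · rintro (i | i | i) (j | j | j) e <;> (try fin_cases i) <;> (try fin_cases j) <;>
        simp [broom, (hp _).1, (hs _).1] at e ⊢ <;> (try simp [e]) <;>
        first
          | exact ne_of_gt (by nlinarith [hp i, hp j])
          | exact ne_of_gt (by nlinarith [hs i, hs j])
          | exact ne_of_gt (by nlinarith [hp i, hs j])
          | exact ne_of_gt (by nlinarith [hs i, hp j])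
          | ring
  · refine gen ![![1, 0, 0], ![0, 1, 0], ![3 / 5, 0, 4 / 5], ![16 / 25, 3 / 5, -12 / 25]]
      ![1, 1 - P, 1 - Q, 1] ![0, 0, 1] ![0, 1, 0] ![-12 / 25, 4 / 5, 9 / 25] ![3 / 5, 0, 4 / 5] 0 1
      (.inl 2) (fun i => ?_) (fun k l => ?_) ?_ rfl rfl
      (by simp [broom]) (by simp [broom]) (by simp [broom])
    · fin_cases i <;> simp <;> linarith
    · fin_cases k <;> fin_cases l <;> simp [Fin.sum_univ_succ] <;> ring
    · rintro (i | i | i) (j | j | j) e <;> (try fin_cases i) <;> (try fin_cases j) <;>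
        simp [broom, (hp _).1] at e ⊢ <;> (try simp [e]) <;>
        first
          | exact ne_of_gt (by nlinarith [hp i, hp j])
          | exact ne_of_gt (by nlinarith [hs i, hs j])
          | exact ne_of_gt (by nlinarith [hp i, hs j])
          | exact ne_of_gt (by nlinarith [hs i, hp j])
          | exact ne_of_lt (by linarith [hp i])
          | exact ne_of_lt (by linarith [hp j])
          | exact ne_of_lt (by linarith [hs i])
          | exact ne_of_lt (by linarith [hs j])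
          | exact fun h => (hs j).1 (by linarith)
          | exact fun h => (hs i).1 (by linarith)
          | ring

end Pool.Agent.Results.MP_4cbb29_co.Broom
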